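import Pool.Agent.Q82.QC.Stm

/-!
# Project QC, job KD: the derivatives of the kernel
-/

set_option autoImplicit false

open MeasureTheory Filter Topology Real

namespace Pool.Agent.Q217.QC

open Pool.Agent.Q82.QC

theorem norm_comp {G F : Type} [NormedAddCommGroup G] [NormedSpace ℝ G] [NormedAddCommGroup F]
    [NormedSpace ℝ F] (g : G →L[ℝ] F) (f : F → ℝ) (U : Set F) (hU : IsOpen U) (n : ℕ)
    (hf : ContDiffOn ℝ n f U) (x : G) (hx : g x ∈ U) :
    ‖iteratedFDeriv ℝ n (f ∘ g) x‖ ≤ ‖iteratedFDeriv ℝ n f (g x)‖ * ‖g‖ ^ n := by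
  have hV : IsOpen (g ⁻¹' U) := hU.preimage g.continuous
  have h := g.iteratedFDerivWithin_comp_right hf hU.uniqueDiffOn hV.uniqueDiffOn hx
    (le_refl (n : WithTop ℕ∞))
  rw [iteratedFDerivWithin_of_isOpen n hV hx, iteratedFDerivWithin_of_isOpen n hU hx] at h
  rw [h]
  refine (ContinuousMultilinearMap.norm_compContinuousLinearMap_le _ _).trans ?_
  simp

section
variable {F : Type} [NormedAddCommGroup F] [InnerProductSpace ℝ F]

/-- the logarithmic kernel -/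
noncomputable def Lam (w : F) : ℝ := Real.log (‖w‖ ^ 2)

theorem Lam_smooth {w : F} (hw : w ≠ 0) (n : ℕ) : ContDiffAt ℝ n (Lam : F → ℝ) w := by
  unfold Lam
  exact (contDiff_norm_sq ℝ).contDiffAt.log (by simpa using hw)

theorem Lam_scale (s : ℝ) (hs : 0 < s) (x : F) (hx : x ≠ 0) :
    Lam x = Lam (s⁻¹ • x) + Real.log (s ^ 2) := by
  unfold Lam
  have hx' : ‖x‖ ≠ 0 := norm_ne_zero_iff.2 hx
  rw [← Real.log_mul (by
    rw [norm_smul]
    have : ‖s⁻¹‖ ≠ 0 := norm_ne_zero_iff.2 (inv_ne_zero hs.ne')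
    positivity) (by positivity)]
  congr 1
  rw [norm_smul, norm_inv, Real.norm_eq_abs, abs_of_pos hs]
  field_simp

theorem Lam_bound [FiniteDimensional ℝ F] (m : ℕ) (hm : 1 ≤ m) : ∃ C : ℝ, 0 < C ∧ ∀ w : F,
    w ≠ 0 → ‖iteratedFDeriv ℝ m (Lam : F → ℝ) w‖ ≤ C / ‖w‖ ^ m := by
  have : ProperSpace F := FiniteDimensional.proper ℝ F
  have hcont : ContinuousOn (iteratedFDeriv ℝ m (Lam : F → ℝ)) (Metric.sphere (0 : F) 1) := by
    intro w hw
    have hw0 : w ≠ 0 := by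
      rintro rfl
      simp at hw
    have h1 : ContDiffAt ℝ (m : ℕ) (Lam : F → ℝ) w := Lam_smooth hw0 m
    have h2 : ContDiffAt ℝ 0 (iteratedFDeriv ℝ m (Lam : F → ℝ)) w :=
      h1.iteratedFDeriv_right (by simp)
    exact h2.continuousAt.continuousWithinAt
  obtain ⟨K, hK⟩ := (isCompact_sphere (0 : F) 1).exists_bound_of_continuousOn hcont
  refine ⟨max K 1, lt_max_of_lt_right one_pos, fun w hw => ?_⟩
  have hs : 0 < ‖w‖ := norm_pos_iff.2 hw
  set s : ℝ := ‖w‖ with hsdef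
  let g : F →L[ℝ] F := s⁻¹ • ContinuousLinearMap.id ℝ F
  have hg : ∀ x, g x = s⁻¹ • x := fun x => rfl
  have hgw : ‖g w‖ = 1 := by
    rw [hg, norm_smul, norm_inv, Real.norm_eq_abs, abs_of_pos hs, ← hsdef,
      inv_mul_cancel₀ hs.ne']
  have hgw0 : g w ≠ 0 := by
    rw [← norm_ne_zero_iff, hgw]
    exact one_ne_zero
  have hgn : ‖g‖ ≤ s⁻¹ := by
    refine ContinuousLinearMap.opNorm_le_bound _ (by positivity) fun x => ?_
    rw [hg, norm_smul, norm_inv, Real.norm_eq_abs, abs_of_pos hs]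
  have hU : IsOpen {x : F | x ≠ 0} := isOpen_ne
  have hev : (Lam : F → ℝ) =ᶠ[𝓝 w] fun x => (Lam ∘ g) x + Real.log (s ^ 2) := by
    filter_upwards [hU.mem_nhds hw] with x hx
    exact Lam_scale s hs x hx
  have hcomp : ContDiffAt ℝ m ((Lam : F → ℝ) ∘ g) w :=
    (Lam_smooth hgw0 m).comp w g.contDiff.contDiffAt
  have e1 : iteratedFDeriv ℝ m (Lam : F → ℝ) w = iteratedFDeriv ℝ m ((Lam : F → ℝ) ∘ g) w := by
    rw [(hev.iteratedFDeriv ℝ m).eq_of_nhds]
    have h2 := fun_iteratedFDeriv_add_apply (𝕜 := ℝ) (i := m) (f := (Lam : F → ℝ) ∘ g)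
      (g := fun _ : F => Real.log (s ^ 2)) hcomp contDiffAt_const
    rw [h2, iteratedFDeriv_const_of_ne (by omega), Pi.zero_apply, add_zero]
  rw [e1]
  have h3 := norm_comp g (Lam : F → ℝ) {x | x ≠ 0} hU m
    (fun x hx => (Lam_smooth hx m).contDiffWithinAt) w hgw0
  refine h3.trans ?_
  have h4 : ‖iteratedFDeriv ℝ m (Lam : F → ℝ) (g w)‖ ≤ K := hK _ (by simpa using hgw)
  calc ‖iteratedFDeriv ℝ m (Lam : F → ℝ) (g w)‖ * ‖g‖ ^ m ≤ max K 1 * (s⁻¹) ^ m := by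
        gcongr
        exact h4.trans (le_max_left _ _)
    _ = max K 1 / s ^ m := by rw [inv_pow, div_eq_mul_inv]

end

/-- the space with one more coordinate -/
abbrev F5 : Type := WithLp 2 (ℝ × E)

/-- the inclusion -/
noncomputable def iota : E →L[ℝ] F5 :=
  ((WithLp.prodContinuousLinearEquiv 2 ℝ ℝ E).symm : ℝ × E →L[ℝ] F5).comp
    (ContinuousLinearMap.inr ℝ ℝ E)

theorem iota_add (e : ℝ) (z : E) :
    ‖iota z + WithLp.toLp 2 ((e, 0) : ℝ × E)‖ ^ 2 = e ^ 2 + ‖z‖ ^ 2 := by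
  rw [WithLp.prod_norm_sq_eq_of_L2]
  have h1 : (iota z + WithLp.toLp 2 ((e, 0) : ℝ × E)).fst = e := by
    simp [iota, WithLp.prodContinuousLinearEquiv_symm_apply]
  have h2 : (iota z + WithLp.toLp 2 ((e, 0) : ℝ × E)).snd = z := by
    simp [iota, WithLp.prodContinuousLinearEquiv_symm_apply]
  rw [h1, h2, Real.norm_eq_abs, sq_abs]

theorem iota_norm : ‖iota‖ ≤ 1 := by
  refine ContinuousLinearMap.opNorm_le_bound _ zero_le_one fun z => ?_
  have h := iota_add 0 z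
  have h0 : (WithLp.toLp 2 (((0 : ℝ), (0 : E)) : ℝ × E)) = 0 := rfl
  rw [h0, add_zero] at h
  rw [one_mul]
  have h1 : ‖iota z‖ ^ 2 ≤ ‖z‖ ^ 2 := by rw [h]; simp
  exact le_of_sq_le_sq h1 (norm_nonneg _)

theorem kd : S_KD := by
  intro m hm
  obtain ⟨C, hC, hb⟩ := Lam_bound (F := F5) m hm
  refine ⟨C, hC, fun e z hz => ?_⟩
  set c : F5 := WithLp.toLp 2 ((e, 0) : ℝ × E) with hc
  have hlg : lg e = (fun w : F5 => Lam (w + c)) ∘ iota := by
    funext y
    simp only [lg, Lam, Function.comp_apply]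
    rw [iota_add]
  have hzpos : 0 < ‖z‖ := norm_pos_iff.2 hz
  have hnorm := iota_add e z
  rw [← hc] at hnorm
  have hge : ‖z‖ ≤ ‖iota z + c‖ := by
    refine le_of_sq_le_sq ?_ (norm_nonneg _)
    rw [hnorm]
    nlinarith [sq_nonneg e]
  have hne : iota z + c ≠ 0 := by
    rw [← norm_pos_iff]
    exact lt_of_lt_of_le hzpos hge
  have hU : IsOpen {w : F5 | w + c ≠ 0} :=
    isOpen_ne.preimage (continuous_id.add continuous_const)
  have hsm : ContDiffOn ℝ m (fun w : F5 => Lam (w + c)) {w : F5 | w + c ≠ 0} := by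
    intro w hw
    have h1 : ContDiffAt ℝ m (Lam : F5 → ℝ) (w + c) := Lam_smooth hw m
    exact (ContDiffAt.comp (g := (Lam : F5 → ℝ)) (f := fun w : F5 => w + c) w h1
      (contDiffAt_id.add contDiffAt_const)).contDiffWithinAt
  rw [hlg]
  refine (norm_comp iota (fun w : F5 => Lam (w + c)) _ hU m hsm z hne).trans ?_
  rw [iteratedFDeriv_comp_add_right]
  calc ‖iteratedFDeriv ℝ m (Lam : F5 → ℝ) (iota z + c)‖ * ‖iota‖ ^ m
      ≤ C / ‖iota z + c‖ ^ m * 1 := by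
        gcongr
        · exact hb _ hne
        · exact pow_le_one₀ (norm_nonneg _) iota_norm
    _ ≤ C / ‖z‖ ^ m := by
        rw [mul_one]
        gcongr

end Pool.Agent.Q217.QC
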